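import Pool.Agent.Run7.h276.PMD.Main

/-!
# `p`-metric mean dimension equals sofic metric mean dimension

For every countable sofic group, every sofic approximation, every `1 ≤ p < ∞` and every action
by homeomorphisms on a compact metrizable space, the `p`-metric mean dimension equals the
sofic metric mean dimension.
-/

open Filter Topology
open scoped ENNReal

namespace Pool.Agent.Results.MP_9d0111_an.PMetricEqMetric

open Run7.h276.PMD

universe u v

theorem sepN_mono (b : Bool) {α : Type*} {Y Y' : Set α} {θ θ' : α → α → ℝ} (hY : Y ⊆ Y')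
    (hθ : ∀ x y, θ x y ≤ θ' x y) (ε : ℝ) : sepN b Y θ ε ≤ sepN b Y' θ' ε := by
  refine iSup₂_le fun Z hZ => ?_
  exact le_iSup₂ (f := fun (Z : Finset α) (_ : (∀ z ∈ Z, z ∈ Y') ∧
    ∀ x ∈ Z, ∀ y ∈ Z, x ≠ y → Sep b ε (θ' x y)) => (Z.card : ℝ≥0∞)) Z
    ⟨fun z hz => hY (hZ.1 z hz), fun x hx y hy hne =>
      ⟨fun hb => ((hZ.2 x hx y hy hne).1 hb).trans_le (hθ x y),
        (hZ.2 x hx y hy hne).2.trans (hθ x y)⟩⟩

theorem small_ev : ∀ᶠ ε in 𝓝[>] (0 : ℝ), 0 < Real.log (1 / ε) := by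
  have hid : Tendsto (fun ε : ℝ => ε) (𝓝[>] (0 : ℝ)) (𝓝 0) :=
    tendsto_nhdsWithin_of_tendsto_nhds tendsto_id
  filter_upwards [self_mem_nhdsWithin, hid.eventually (gt_mem_nhds zero_lt_one)] with ε h0 h1
  have h0 : 0 < ε := h0
  rw [one_div, Real.log_inv]
  have := Real.log_neg h0 h1
  linarith

theorem mdimRho_le_top {Γ : Type u} [Group Γ] (Sg : SoficApprox Γ) (b : Bool) {X : Type v}
    [TopologicalSpace X] [SMul Γ X] {p : ℝ≥0∞} (hp1 : 1 ≤ p) {ρ : X → X → ℝ}
    (hρ : IsContPseudo ρ) : mdimRho Sg b p ρ ≤ mdimRho Sg b ∞ ρ := by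
  refine liminf_le_liminf ?_
  filter_upwards [small_ev] with ε hL
  refine iInf_mono fun F => iInf_mono fun δ => iInf_mono fun _ => ?_
  refine limsup_le_limsup (Eventually.of_forall fun i => ?_)
  refine EReal.div_le_div_right_of_nonneg (by exact_mod_cast (by positivity)) ?_
  exact ENNReal.log_monotone (sepN_mono b le_rfl
    (fun x y => rhoP_le_top ρ (ps_nonneg hρ) hp1 x y) ε)

theorem exists_delta {Γ : Type u} {X : Type v} [TopologicalSpace X] [CompactSpace X] [SMul Γ X]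
    {ρ : X → X → ℝ} (hρ : IsContPseudo ρ) {xs : ℕ → X} (hxs : DenseRange xs) {δ : ℝ}
    (hδ : 0 < δ) : ∃ δ' : ℝ, 0 < δ' ∧ ∀ (F : Finset Γ) (d : ℕ) (σ : Γ → Equiv.Perm (Fin d)),
      MapSet (tame ρ xs) F δ' σ ⊆ MapSet ρ F δ σ := by
  obtain ⟨C, hC, hbd⟩ := exists_sq_bound hρ hxs (κ := δ ^ 2 / 2) (by positivity)
  have ht := tame_isContPseudo hρ xs
  have htwo : (2 : ℝ≥0∞) ≠ ∞ := ENNReal.ofNat_ne_top
  refine ⟨Real.sqrt (δ ^ 2 / (2 * C)), Real.sqrt_pos.mpr (by positivity), fun F d σ φ hφ s hs => ?_⟩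
  have h1 := hφ s hs
  rw [rhoP_of_ne _ htwo] at h1 ⊢
  simp only [ENNReal.toReal_ofNat, Real.rpow_ofNat] at h1 ⊢
  rcases Nat.eq_zero_or_pos d with hd | hd
  · subst hd
    simp only [Nat.cast_zero, div_zero, zero_mul]
    rw [Real.zero_rpow (by norm_num)]
    exact hδ.le
  have hd0 : (0 : ℝ) < d := by exact_mod_cast hd
  rw [← Real.sqrt_eq_rpow] at h1 ⊢
  rw [Real.sqrt_le_sqrt_iff (by positivity)] at h1
  rw [Real.sqrt_le_left hδ.le]
  calc 1 / (d : ℝ) * ∑ j, ρ (φ (σ s j)) (s • φ j) ^ 2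
      ≤ 1 / (d : ℝ) * ∑ j, (δ ^ 2 / 2 + C * tame ρ xs (φ (σ s j)) (s • φ j) ^ 2) := by
        refine mul_le_mul_of_nonneg_left ?_ (by positivity)
        exact Finset.sum_le_sum fun j _ => hbd _ _
    _ = δ ^ 2 / 2 + C * (1 / (d : ℝ) * ∑ j, tame ρ xs (φ (σ s j)) (s • φ j) ^ 2) := by
        rw [Finset.sum_add_distrib, ← Finset.mul_sum, Finset.sum_const, Finset.card_univ,
          Fintype.card_fin, nsmul_eq_mul]
        field_simp
    _ ≤ δ ^ 2 / 2 + C * (δ ^ 2 / (2 * C)) := by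
        have := mul_le_mul_of_nonneg_left h1 hC.le
        linarith
    _ = δ ^ 2 := by field_simp; ring

theorem mdimRho_tame_le {Γ : Type u} [Group Γ] (Sg : SoficApprox Γ) (b : Bool) {X : Type v}
    [TopologicalSpace X] [CompactSpace X] [SMul Γ X] {p : ℝ≥0∞} (hp1 : 1 ≤ p) (hp : p ≠ ∞)
    {ρ : X → X → ℝ} (hρ : IsContPseudo ρ) {xs : ℕ → X} (hxs : DenseRange xs) :
    mdimRho Sg b p (tame ρ xs) ≤ mdimRho Sg b p ρ := by
  refine liminf_le_liminf ?_
  filter_upwards [small_ev] with ε hL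
  refine le_iInf fun F => le_iInf fun δ => le_iInf fun hδ => ?_
  obtain ⟨δ', hδ', hsub⟩ := exists_delta (Γ := Γ) hρ hxs hδ
  refine iInf_le_of_le F (iInf_le_of_le δ' (iInf_le_of_le hδ' ?_))
  refine limsup_le_limsup (Eventually.of_forall fun i => ?_)
  refine EReal.div_le_div_right_of_nonneg (by exact_mod_cast (by positivity)) ?_
  exact ENNReal.log_monotone (sepN_mono b (hsub F _ _)
    (fun x y => rhoP_mono (ps_nonneg (tame_isContPseudo hρ xs)) (tame_le hρ xs) hp hp1 x y) ε)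

/-- **Main theorem** (full positive answer).  For every countable group `Γ` with a sofic
approximation `Sg`, every action of `Γ` by homeomorphisms on a compact metrizable space `X` and
every `1 ≤ p < ∞`, the `p`-metric mean dimension equals the sofic metric mean dimension (the
case `p = ∞`), for both usual conventions (`> ε` or `≥ ε`) of `ε`-separation. -/
theorem result {Γ : Type u} [Group Γ] [Countable Γ] (Sg : SoficApprox Γ) (strict : Bool)
    {X : Type v} [TopologicalSpace X] [CompactSpace X] [TopologicalSpace.MetrizableSpace X]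
    [MulAction Γ X] [ContinuousConstSMul Γ X] (p : ℝ≥0∞) (hp1 : 1 ≤ p) (hp : p ≠ ∞) :
    mdimM Sg strict X p = mdimM Sg strict X ∞ := by
  apply le_antisymm
  · exact iInf_mono fun ρ => iInf_mono fun hρ => mdimRho_le_top Sg strict hp1 hρ.1
  · refine le_iInf fun ρ => le_iInf fun hρ => ?_
    obtain ⟨hρc, hρg⟩ := hρ
    rcases isEmpty_or_nonempty X with hE | hne
    · -- empty space: every quantity is the same
      refine iInf_le_of_le ρ (iInf_le_of_le ⟨hρc, hρg⟩ ?_)
      refine mdimRho_top_le Sg strict hp1 hp hρc (D := 1) one_pos fun ε _ n _ => ?_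
      exact ⟨fun x => (hE.false x).elim, fun x => (hE.false x).elim⟩
    · let _ := TopologicalSpace.metrizableSpaceMetric X
      set xs : ℕ → X := TopologicalSpace.denseSeq X with hxsd
      have hxs : DenseRange xs := TopologicalSpace.denseRange_denseSeq X
      have ht := tame_isContPseudo hρc xs
      have htg : DynGen Γ (tame ρ xs) := by
        intro x y hxy
        obtain ⟨s, hs⟩ := hρg x y hxy
        refine ⟨s, ?_⟩
        rcases (ps_nonneg ht (s • x) (s • y)).lt_or_eq with h | h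
        · exact h
        · have := eq_zero_of_tame hρc hxs h.symm
          linarith
      obtain ⟨D, hD⟩ : ∃ D : ℝ, ∀ q : X × X, ρ q.1 q.2 ≤ D := by
        obtain ⟨D, hD⟩ := isCompact_univ.bddAbove_image (hρc.cont.continuousOn (s := Set.univ))
        exact ⟨D, fun q => hD ⟨q, Set.mem_univ _, rfl⟩⟩
      have hD' : ∀ x y, ρ x y ≤ max D 1 := fun x y => (hD (x, y)).trans (le_max_left _ _)
      have hD0 : 0 < max D 1 := lt_max_of_lt_right one_pos
      refine iInf_le_of_le (tame ρ xs) (iInf_le_of_le ⟨ht, htg⟩ ?_)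
      calc mdimRho Sg strict ∞ (tame ρ xs) ≤ mdimRho Sg strict p (tame ρ xs) :=
            mdimRho_top_le Sg strict hp1 hp ht hD0
              fun ε hε n hn => exists_cell hρc hD' xs hε n hn
        _ ≤ mdimRho Sg strict p ρ := mdimRho_tame_le Sg strict hp1 hp hρc hxs

end Pool.Agent.Results.MP_9d0111_an.PMetricEqMetric
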